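import Pool.Agent.Q237.LR.Stm5

/-!
# Project LR, third theorem: existence of the spectral measure
-/

set_option autoImplicit false

namespace Pool.Agent.Q256.LR

open MeasureTheory ProbabilityTheory Set Filter Topology H10PL Pool.Agent.Q237.LR2
  Pool.Agent.Q237.LR3 Pool.Agent.Q237.LR4 Pool.Agent.Q237.LR5

open scoped Matrix

theorem zE_ne (t E : ℝ) {η : ℝ} (hη : 0 < η) : (t : ℂ) - zE E η ≠ 0 := by
  intro h
  have h1 := congrArg Complex.im h
  simp [zE] at h1
  exact hη.ne' h1

/-- spectral decomposition of a real symmetric matrix, at one entry of the diagonal -/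
theorem spec_dec {ι : Type*} [Fintype ι] [DecidableEq ι] (A : Matrix ι ι ℝ) (hA : A.IsSymm)
    (V : ι → ℝ) (x : ι) : ∃ (p : ι → ℝ) (l : ι → ℝ), (∀ j, 0 ≤ p j) ∧ ∑ j, p j = 1 ∧
      (∀ E η : ℝ, 0 < η → ∑ j, (p j : ℂ) * (1 / ((l j : ℂ) - zE E η)) = Gm A V E η x x) ∧
      ∑ j, p j * l j ^ 2 ≤ 2 * ∑ y, A x y ^ 2 + 2 * V x ^ 2 := by
  obtain ⟨H, hHd⟩ : ∃ H : Matrix ι ι ℝ, H = A + Matrix.diagonal V := ⟨_, rfl⟩
  have hH : H.IsHermitian := by
    rw [Matrix.IsHermitian, Matrix.conjTranspose_eq_transpose_of_trivial, hHd,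
      Matrix.transpose_add, Matrix.diagonal_transpose, hA.eq]
  have hHe : ∀ y w, H y w = A y w + if y = w then V y else 0 := by
    intro y w
    rw [hHd, Matrix.add_apply, Matrix.diagonal_apply]
  obtain ⟨φ, hφ⟩ : ∃ φ : ι → ι → ℝ, φ = fun j y => hH.eigenvectorBasis j y := ⟨_, rfl⟩
  obtain ⟨l, hl⟩ : ∃ l : ι → ℝ, l = hH.eigenvalues := ⟨_, rfl⟩
  have hc : ∀ y w, ∑ j, φ j y * φ j w = if y = w then 1 else 0 := by
    intro y w
    have h1 := (Matrix.mem_unitaryGroup_iff (n := ι) (α := ℝ)).1 hH.eigenvectorUnitary.2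
    have h2 := congrFun (congrFun h1 y) w
    rw [Matrix.mul_apply, Matrix.one_apply] at h2
    rw [← h2]
    refine Finset.sum_congr rfl fun j _ => ?_
    rw [Matrix.star_apply, hφ]
    rfl
  have he : ∀ j y, ∑ w, H y w * φ j w = l j * φ j y := by
    intro j y
    have := congrFun (hH.mulVec_eigenvectorBasis j) y
    rw [hφ, hl]
    exact this
  have hent : ∀ y w, H y w = ∑ j, l j * (φ j y * φ j w) := by
    intro y w
    calc H y w = ∑ v, H y v * (if v = w then 1 else 0) := by simp
      _ = ∑ v, H y v * ∑ j, φ j v * φ j w := by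
          refine Finset.sum_congr rfl fun v _ => ?_
          rw [hc]
      _ = ∑ j, (∑ v, H y v * φ j v) * φ j w := by
          simp_rw [Finset.mul_sum, Finset.sum_mul]
          rw [Finset.sum_comm]
          refine Finset.sum_congr rfl fun j _ => Finset.sum_congr rfl fun v _ => ?_
          ring
      _ = _ := by
          refine Finset.sum_congr rfl fun j _ => ?_
          rw [he]
          ring
  refine ⟨fun j => φ j x ^ 2, l, fun j => sq_nonneg _, ?_, ?_, ?_⟩
  · have := hc x x
    rw [if_pos rfl] at this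
    rw [← this]
    exact Finset.sum_congr rfl fun j _ => sq _
  · intro E η hη
    obtain ⟨g, hg⟩ : ∃ g : ι → ℂ, g = fun y => ∑ j, (φ j y : ℂ) * (φ j x : ℂ) / ((l j : ℂ) - zE E η) :=
      ⟨_, rfl⟩
    have h1 : Mz A V E η *ᵥ g = Pi.single x 1 := by
      funext y
      rw [Mz_mulVec]
      have e1 : (∑ j, (A y j : ℂ) * g j) + ((V y : ℂ) - ((E : ℂ) + (η : ℂ) * Complex.I)) * g y =
          (∑ w, (H y w : ℂ) * g w) - zE E η * g y := by
        have e2 : ∑ w, (H y w : ℂ) * g w = (∑ j, (A y j : ℂ) * g j) + (V y : ℂ) * g y := by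
          simp_rw [hHe]
          push_cast
          simp_rw [add_mul, Finset.sum_add_distrib]
          congr 1
          rw [Finset.sum_eq_single y]
          · rw [if_pos rfl]
          · intro w _ hw
            rw [if_neg (Ne.symm hw), Complex.ofReal_zero, zero_mul]
          · intro h
            exact absurd (Finset.mem_univ _) h
        rw [e2]
        unfold zE
        ring
      rw [e1]
      have e3 : ∑ w, (H y w : ℂ) * g w =
          ∑ j, (l j : ℂ) * ((φ j y : ℂ) * (φ j x : ℂ) / ((l j : ℂ) - zE E η)) := by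
        rw [hg]
        simp_rw [Finset.mul_sum]
        rw [Finset.sum_comm]
        refine Finset.sum_congr rfl fun j _ => ?_
        have e4 : ∑ w, (H y w : ℂ) * (φ j w : ℂ) = (l j : ℂ) * (φ j y : ℂ) := by
          have := congrArg (fun t : ℝ => (t : ℂ)) (he j y)
          simpa using this
        calc ∑ w, (H y w : ℂ) * ((φ j w : ℂ) * (φ j x : ℂ) / ((l j : ℂ) - zE E η)) =
            (∑ w, (H y w : ℂ) * (φ j w : ℂ)) * ((φ j x : ℂ) / ((l j : ℂ) - zE E η)) := by
              rw [Finset.sum_mul]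
              exact Finset.sum_congr rfl fun w _ => by ring
          _ = _ := by rw [e4]; ring
      rw [e3, hg]
      rw [Finset.mul_sum, ← Finset.sum_sub_distrib]
      have e5 : ∀ j, (l j : ℂ) * ((φ j y : ℂ) * (φ j x : ℂ) / ((l j : ℂ) - zE E η)) -
          zE E η * ((φ j y : ℂ) * (φ j x : ℂ) / ((l j : ℂ) - zE E η)) = (φ j y : ℂ) * (φ j x : ℂ) := by
        intro j
        have := zE_ne (l j) E hη
        field_simp
      simp_rw [e5]
      have e6 := congrArg (fun t : ℝ => (t : ℂ)) (hc y x)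
      push_cast at e6
      rw [e6, Pi.single_apply]
      split_ifs <;> simp
    have h2 : g = Gm A V E η *ᵥ (Pi.single x 1) := by
      rw [← h1, Matrix.mulVec_mulVec, Gm_mul_Mz A hA V E hη, Matrix.one_mulVec]
    have h3 := congrFun h2 x
    rw [Matrix.mulVec_single_one] at h3
    have h4 : g x = Gm A V E η x x := h3
    rw [← h4, hg]
    refine Finset.sum_congr rfl fun j _ => ?_
    push_cast
    ring
  · have h1 : ∑ j, φ j x ^ 2 * l j ^ 2 = ∑ y, H x y ^ 2 := by
      symm
      calc ∑ y, H x y ^ 2 = ∑ y, H x y * ∑ j, l j * (φ j x * φ j y) := by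
            refine Finset.sum_congr rfl fun y _ => ?_
            rw [← hent]
            ring
        _ = ∑ j, l j * φ j x * ∑ y, H x y * φ j y := by
            simp_rw [Finset.mul_sum]
            rw [Finset.sum_comm]
            refine Finset.sum_congr rfl fun j _ => Finset.sum_congr rfl fun v _ => ?_
            ring
        _ = _ := by
            refine Finset.sum_congr rfl fun j _ => ?_
            rw [he]
            ring
    rw [h1]
    calc ∑ y, H x y ^ 2 ≤ ∑ y, (2 * A x y ^ 2 + 2 * (if x = y then V x ^ 2 else 0)) := by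
          refine Finset.sum_le_sum fun y _ => ?_
          rw [hHe]
          split_ifs with h
          · nlinarith [sq_nonneg (A x y - V x)]
          · nlinarith [sq_nonneg (A x y)]
      _ = _ := by
          rw [Finset.sum_add_distrib, ← Finset.mul_sum, ← Finset.mul_sum]
          simp

/-- the spectral measure of a matrix -/
theorem spec_fin {ι : Type*} [Fintype ι] [DecidableEq ι] (A : Matrix ι ι ℝ) (hA : A.IsSymm)
    (V : ι → ℝ) (x : ι) : ∃ m : ProbabilityMeasure ℝ,
      (∀ E η : ℝ, 0 < η → ∫ t : ℝ, 1 / ((t : ℂ) - zE E η) ∂(m : Measure ℝ) = Gm A V E η x x) ∧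
      ∀ R : ℝ, 0 < R → (m : Measure ℝ) (Icc (-R) R)ᶜ ≤
        ENNReal.ofReal ((2 * ∑ y, A x y ^ 2 + 2 * V x ^ 2) / R ^ 2) := by
  obtain ⟨p, l, hp, hp1, hG, hsq⟩ := spec_dec A hA V x
  obtain ⟨m, hm⟩ : ∃ m : Measure ℝ, m = ∑ j, ENNReal.ofReal (p j) • Measure.dirac (l j) := ⟨_, rfl⟩
  have hm1 : IsProbabilityMeasure m := by
    constructor
    rw [hm, Measure.finsetSum_apply]
    simp only [Measure.smul_apply, measure_univ, smul_eq_mul, mul_one]
    rw [← ENNReal.ofReal_sum_of_nonneg fun j _ => hp j, hp1, ENNReal.ofReal_one]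
  refine ⟨⟨m, hm1⟩, ?_, ?_⟩
  · intro E η hη
    change ∫ t : ℝ, 1 / ((t : ℂ) - zE E η) ∂m = _
    rw [hm, integral_finsetSum_measure]
    · rw [← hG E η hη]
      refine Finset.sum_congr rfl fun j _ => ?_
      rw [integral_smul_measure, integral_dirac, ENNReal.toReal_ofReal (hp j), Complex.real_smul]
    · intro j _
      refine Integrable.smul_measure ?_ ENNReal.ofReal_ne_top
      exact integrable_dirac (by simp [enorm_lt_top])
  · intro R hR
    change m (Icc (-R) R)ᶜ ≤ _
    rw [hm, Measure.finsetSum_apply]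
    calc ∑ j, (ENNReal.ofReal (p j) • Measure.dirac (l j)) (Icc (-R) R)ᶜ ≤
        ∑ j, ENNReal.ofReal (p j * l j ^ 2 / R ^ 2) := by
          refine Finset.sum_le_sum fun j _ => ?_
          rw [Measure.smul_apply, Measure.dirac_apply' _ measurableSet_Icc.compl, smul_eq_mul]
          by_cases h : l j ∈ (Icc (-R) R)ᶜ
          · rw [indicator_of_mem h, Pi.one_apply, mul_one]
            apply ENNReal.ofReal_le_ofReal
            rw [le_div_iff₀ (by positivity)]
            have h1 : R ^ 2 ≤ l j ^ 2 := by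
              rw [mem_compl_iff, mem_Icc, not_and_or, not_le, not_le] at h
              rcases h with h | h <;> nlinarith
            exact mul_le_mul_of_nonneg_left h1 (hp j)
          · rw [indicator_of_notMem h, mul_zero]
            exact zero_le
      _ = ENNReal.ofReal (∑ j, p j * l j ^ 2 / R ^ 2) := by
          rw [ENNReal.ofReal_sum_of_nonneg]
          intro j _
          have := hp j
          positivity
      _ ≤ _ := by
          apply ENNReal.ofReal_le_ofReal
          rw [← Finset.sum_div]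
          gcongr

theorem norm_inv_le (t E : ℝ) {η : ℝ} (hη : 0 < η) : ‖1 / ((t : ℂ) - zE E η)‖ ≤ 1 / η := by
  rw [norm_div, norm_one]
  apply one_div_le_one_div_of_le hη
  have h1 := Complex.abs_im_le_norm ((t : ℂ) - zE E η)
  have h2 : ((t : ℂ) - zE E η).im = -η := by simp [zE]
  rw [h2, abs_neg, abs_of_pos hη] at h1
  exact h1

theorem exi (hc : S_CNV) : S_EXI := by
  intro d T0 κ ρ0 b h s hs V x
  obtain ⟨C, hC⟩ : ∃ C : ℝ, C = 2 * ∑' w, Kf T0 κ s x w ^ 2 + 2 * V x ^ 2 := ⟨_, rfl⟩
  have hC0 : 0 ≤ C := by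
    have : 0 ≤ ∑' w, Kf T0 κ s x w ^ 2 := tsum_nonneg fun w => sq_nonneg _
    rw [hC]
    positivity
  have key : ∀ n : ℕ, ∃ m : ProbabilityMeasure ℝ,
      (x ∈ bx d n → ∀ E η : ℝ, 0 < η →
        ∫ t : ℝ, 1 / ((t : ℂ) - zE E η) ∂(m : Measure ℝ) = Gn T0 κ n x E η V s) ∧
      ∀ R : ℝ, 0 < R → (m : Measure ℝ) (Icc (-R) R)ᶜ ≤ ENNReal.ofReal (C / R ^ 2) := by
    intro n
    by_cases hx : x ∈ bx d n
    · obtain ⟨m, h1, h2⟩ := spec_fin (Am T0 κ n (bx d n) s) (Am_symm h n (bx d n) s)
        (fun i : bx d n => V i) ⟨x, hx⟩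
      refine ⟨m, fun _ E η hη => ?_, fun R hR => (h2 R hR).trans ?_⟩
      · rw [h1 E η hη]
        unfold Gn
        rw [dif_pos hx]
      · apply ENNReal.ofReal_le_ofReal
        have h3 : ∑ y : bx d n, Am T0 κ n (bx d n) s ⟨x, hx⟩ y ^ 2 ≤ ∑' w, Kf T0 κ s x w ^ 2 := by
          calc ∑ y : bx d n, Am T0 κ n (bx d n) s ⟨x, hx⟩ y ^ 2 =
              ∑ y ∈ bx d n, Kr T0 κ n s x y ^ 2 := by
                rw [← Finset.sum_coe_sort (bx d n)]
                rfl
            _ ≤ ∑ y ∈ bx d n, Kf T0 κ s x y ^ 2 := by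
                refine Finset.sum_le_sum fun y _ => ?_
                unfold Kr
                split_ifs
                · exact le_rfl
                · rw [zero_pow two_ne_zero]
                  exact sq_nonneg _
            _ ≤ _ := (Kf_sq_summable h s x).sum_le_tsum _ fun w _ => sq_nonneg _
        rw [hC]
        gcongr
    · refine ⟨⟨Measure.dirac 0, inferInstance⟩, fun hx' => absurd hx' hx, fun R hR => ?_⟩
      change (Measure.dirac (0 : ℝ)) (Icc (-R) R)ᶜ ≤ _
      rw [Measure.dirac_apply' _ measurableSet_Icc.compl, indicator_of_notMem]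
      · exact zero_le
      · rw [mem_compl_iff, not_not]
        exact ⟨by linarith, hR.le⟩
  choose m hm1 hm2 using key
  have htight : IsTightMeasureSet {((μ : ProbabilityMeasure ℝ) : Measure ℝ) | μ ∈ range m} := by
    rw [isTightMeasureSet_iff_exists_isCompact_measure_compl_le]
    intro ε hε
    have h1 : Tendsto (fun R : ℝ => C / R ^ 2) atTop (𝓝 0) :=
      tendsto_const_nhds.div_atTop (tendsto_pow_atTop two_ne_zero)
    have h2 : Tendsto (fun R : ℝ => ENNReal.ofReal (C / R ^ 2)) atTop (𝓝 0) := by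
      have := ENNReal.tendsto_ofReal h1
      rwa [ENNReal.ofReal_zero] at this
    obtain ⟨R, hR1, hR2⟩ := (((tendsto_order.1 h2).2 ε hε).and (eventually_gt_atTop 0)).exists
    refine ⟨Icc (-R) R, isCompact_Icc, ?_⟩
    rintro _ ⟨_, ⟨n, rfl⟩, rfl⟩
    exact (hm2 n R hR2).trans hR1.le
  have hK := isCompact_closure_of_isTightMeasureSet htight
  obtain ⟨μ, -, hle⟩ := hK.ultrafilter_le_nhds ((hyperfilter ℕ).map m) (by
    rw [le_principal_iff]
    exact Filter.mem_of_superset (Ultrafilter.mem_map.2 (univ_mem' fun n => mem_range_self n))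
      subset_closure)
  have hμ : Tendsto m (hyperfilter ℕ : Filter ℕ) (𝓝 μ) := hle
  have hU : (hyperfilter ℕ : Filter ℕ) ≤ atTop := Nat.hyperfilter_le_atTop
  have hev : ∀ᶠ n : ℕ in atTop, x ∈ bx d n := by
    obtain ⟨N, hN⟩ := exists_nat_ge ‖x‖
    filter_upwards [eventually_ge_atTop N] with n hn
    unfold bx
    rw [Set.Finite.mem_toFinset]
    change ‖x - 0‖ ≤ (n : ℝ)
    rw [sub_zero]
    exact hN.trans (by exact_mod_cast hn)
  rw [ProbabilityMeasure.tendsto_iff_forall_integral_rclike_tendsto ℂ] at hμ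
  refine ⟨(μ : Measure ℝ), inferInstance, fun z hz => ?_⟩
  have hzE : z = zE z.re z.im := by
    unfold zE
    exact (Complex.re_add_im z).symm
  obtain ⟨u, hu, hlim⟩ := hc d T0 κ ρ0 b h s hs V x z.re z.im hz
  rw [← hzE] at hu
  refine ⟨u, hu, ?_⟩
  have hcont : Continuous fun t : ℝ => 1 / ((t : ℂ) - zE z.re z.im) :=
    continuous_const.div (Complex.continuous_ofReal.sub continuous_const)
      fun t => zE_ne t _ hz
  have h1 := hμ (BoundedContinuousFunction.ofNormedAddCommGroup
    (fun t : ℝ => 1 / ((t : ℂ) - zE z.re z.im)) hcont (1 / z.im) fun t => norm_inv_le t _ hz)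
  simp only [BoundedContinuousFunction.coe_ofNormedAddCommGroup] at h1
  have h2 : Tendsto (fun n : ℕ => ∫ t : ℝ, 1 / ((t : ℂ) - zE z.re z.im) ∂(m n : Measure ℝ))
      (hyperfilter ℕ : Filter ℕ) (𝓝 (u x)) := by
    refine (hlim.mono_left hU).congr' ?_
    filter_upwards [hU hev] with n hn
    exact (hm1 n hn z.re z.im hz).symm
  have h3 := tendsto_nhds_unique h2 h1
  rw [← hzE] at h3
  exact h3

end Pool.Agent.Q256.LR
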